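import Mathlib
import Pool.Agent.H646Z.SumFinal

/-!
Two unit graphs whose disjoint union is not a unit graph.
-/

namespace Pool.Agent.Results.MP_a7f73e_co.UnionNotUnit

open Pool.Agent.H646Z.SumG

/-- There are finite graphs `G₁`, `G₂` without isolated vertices, both of sum number `1`, whose
disjoint union has sum number `2`. -/
theorem result :
    ∃ (V₁ V₂ : Type) (_ : Finite V₁) (_ : Finite V₂) (G₁ : SimpleGraph V₁) (G₂ : SimpleGraph V₂),
      (∀ v, ∃ w, G₁.Adj v w) ∧ (∀ v, ∃ w, G₂.Adj v w) ∧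
      HasSumNumber G₁ 1 ∧ HasSumNumber G₂ 1 ∧ HasSumNumber (G₁.sum G₂) 2 :=
  main

end Pool.Agent.Results.MP_a7f73e_co.UnionNotUnit
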